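import Pool.Agent.QC.Final

/-!
# MP_7c50a9_lc: counting connected components of sets defined by few quadratic inequalities

The number of connected components of `{x : P_1(x) ≥ 0, ..., P_ℓ(x) ≥ 0}`, `P_i` of degree at most
two in `k` variables, is computed from the coefficients with `k ^ O(ℓ)` arithmetic operations and
sign tests (a positive answer to Q2, hence to Q1).
-/

namespace Pool.Agent.QC.Attic.Components

open MvPolynomial

/-- Algebraic computation trees with output in `ℕ`.  `ACT n` is a tree whose `n` registers already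
hold real numbers.  An operand is a register (`Sum.inl i`) or an integer constant (`Sum.inr z`).
`add u v T`, `sub u v T` and `mul u v T` compute `u + v`, `u - v` and `u * v`, store the result in a
new register and continue with `T`.  `sgn u T₁ T₂ T₃` determines the sign of `u` and continues with
`T₁` if `u < 0`, with `T₂` if `u = 0` and with `T₃` if `u > 0`.  `out b` stops with output `b`. -/
inductive ACT : ℕ → Type
  | out {n : ℕ} (b : ℕ) : ACT n
  | add {n : ℕ} (u v : Fin n ⊕ ℤ) (T : ACT (n + 1)) : ACT n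
  | sub {n : ℕ} (u v : Fin n ⊕ ℤ) (T : ACT (n + 1)) : ACT n
  | mul {n : ℕ} (u v : Fin n ⊕ ℤ) (T : ACT (n + 1)) : ACT n
  | sgn {n : ℕ} (u : Fin n ⊕ ℤ) (T₁ T₂ T₃ : ACT n) : ACT n

/-- The value of an operand when the registers hold `x`. -/
def val {n : ℕ} (x : Fin n → ℝ) : Fin n ⊕ ℤ → ℝ
  | .inl i => x i
  | .inr z => z

/-- The output of a tree when the registers hold `x`. -/
noncomputable def ACT.run : {n : ℕ} → ACT n → (Fin n → ℝ) → ℕ
  | _, .out b, _ => b
  | _, .add u v T, x => T.run (Fin.snoc x (val x u + val x v))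
  | _, .sub u v T, x => T.run (Fin.snoc x (val x u - val x v))
  | _, .mul u v T, x => T.run (Fin.snoc x (val x u * val x v))
  | _, .sgn u T₁ T₂ T₃, x =>
      if val x u < 0 then T₁.run x else if val x u = 0 then T₂.run x else T₃.run x

/-- The complexity: the largest number of operations and sign determinations on a branch. -/
def ACT.depth : {n : ℕ} → ACT n → ℕ
  | _, .out _ => 0
  | _, .add _ _ T => T.depth + 1
  | _, .sub _ _ T => T.depth + 1
  | _, .mul _ _ T => T.depth + 1
  | _, .sgn _ T₁ T₂ T₃ => max T₁.depth (max T₂.depth T₃.depth) + 1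

/-- Conversion. -/
def conv : {n : ℕ} → QC.Tree ℕ n → ACT n
  | _, .out b => .out b
  | _, .add u v T => .add u v (conv T)
  | _, .sub u v T => .sub u v (conv T)
  | _, .mul u v T => .mul u v (conv T)
  | _, .sgn u T₁ T₂ T₃ => .sgn u (conv T₁) (conv T₂) (conv T₃)

lemma val_eq {n : ℕ} (x : Fin n → ℝ) (u : Fin n ⊕ ℤ) : val x u = QC.val x u := by
  cases u <;> rfl

lemma run_conv {n : ℕ} (T : QC.Tree ℕ n) : ∀ x, (conv T).run x = T.run x := by
  induction T with
  | out b => intro x; rfl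
  | add u v T ih => intro x; rw [conv, ACT.run, QC.Tree.run, ih, val_eq, val_eq]
  | sub u v T ih => intro x; rw [conv, ACT.run, QC.Tree.run, ih, val_eq, val_eq]
  | mul u v T ih => intro x; rw [conv, ACT.run, QC.Tree.run, ih, val_eq, val_eq]
  | sgn u T₁ T₂ T₃ ih₁ ih₂ ih₃ =>
    intro x; rw [conv, ACT.run, QC.Tree.run, ih₁, ih₂, ih₃, val_eq]

lemma depth_conv {n : ℕ} (T : QC.Tree ℕ n) : (conv T).depth = T.depth := by
  induction T with
  | out b => rfl
  | add u v T ih => rw [conv, ACT.depth, QC.Tree.depth, ih]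
  | sub u v T ih => rw [conv, ACT.depth, QC.Tree.depth, ih]
  | mul u v T ih => rw [conv, ACT.depth, QC.Tree.depth, ih]
  | sgn u T₁ T₂ T₃ ih₁ ih₂ ih₃ => rw [conv, ACT.depth, QC.Tree.depth, ih₁, ih₂, ih₃]

/-- **Positive answer to Q2.** There is a constant `C` such that for all `k ≥ 2` and `ℓ ≥ 1` and
every enumeration `e` of the coefficients of `ℓ` polynomials of degree at most two in `k` variables
there are computation trees of depth at most `k ^ (C * ℓ)` which compute, from these coefficients,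
the number of connected components of `{x ∈ ℝ^k : P_i(x) ≥ 0 for all i}` and of
`{x ∈ ℝ^k : P_i(x) ≤ 0 for all i}`; these numbers are finite. -/
theorem result : ∃ C : ℕ, ∀ k ℓ : ℕ, 2 ≤ k → 1 ≤ ℓ → ∀ (N : ℕ)
    (e : Fin N ≃ Fin ℓ × {m : Fin k →₀ ℕ // m.degree ≤ 2}),
    (∃ T : ACT N, T.depth ≤ k ^ (C * ℓ) ∧ ∀ P : Fin ℓ → MvPolynomial (Fin k) ℝ,
      (∀ i, (P i).totalDegree ≤ 2) →
        Finite (ConnectedComponents {x : Fin k → ℝ | ∀ i, 0 ≤ eval x (P i)}) ∧
        T.run (fun j => coeff (e j).2.1 (P (e j).1)) =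
          Nat.card (ConnectedComponents {x : Fin k → ℝ | ∀ i, 0 ≤ eval x (P i)})) ∧
    (∃ T : ACT N, T.depth ≤ k ^ (C * ℓ) ∧ ∀ P : Fin ℓ → MvPolynomial (Fin k) ℝ,
      (∀ i, (P i).totalDegree ≤ 2) →
        Finite (ConnectedComponents {x : Fin k → ℝ | ∀ i, eval x (P i) ≤ 0}) ∧
        T.run (fun j => coeff (e j).2.1 (P (e j).1)) =
          Nat.card (ConnectedComponents {x : Fin k → ℝ | ∀ i, eval x (P i) ≤ 0})) := by
  obtain ⟨C, hC⟩ := QC.final
  refine ⟨C, fun k ℓ hk hℓ N e => ?_⟩
  obtain ⟨⟨T₁, h₁, h₁'⟩, T₂, h₂, h₂'⟩ := hC k ℓ hk hℓ N e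
  refine ⟨⟨conv T₁, by rw [depth_conv]; exact h₁, fun P hP => ?_⟩,
    ⟨conv T₂, by rw [depth_conv]; exact h₂, fun P hP => ?_⟩⟩
  · rw [run_conv]; exact h₁' P hP
  · rw [run_conv]; exact h₂' P hP

end Pool.Agent.QC.Attic.Components
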